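import Pool.Agent.Q94.CP.K1
import Pool.Agent.Q94.CP.K2
import Pool.Agent.Q94.CP.K3
import Pool.Agent.Q94.CP.K4
import Pool.Agent.Q94.CP.K5
import Pool.Agent.Q94.CP.K6
import Pool.Agent.Q94.CP.K7
import Pool.Agent.Q94.CP.K8
import Pool.Agent.Q94.CP.K9
import Pool.Agent.Q94.CP.K10
import Pool.Agent.Q94.CP.K11
import Pool.Agent.Q94.CP.K12
import Pool.Agent.Q94.CP.K13
import Pool.Agent.Q94.CP.K14
import Pool.Agent.Q94.CP.K15
import Pool.Agent.Q94.CP.K16
import Pool.Agent.Q94.CP.K17
import Pool.Agent.Q94.CP.MX
import Pool.Agent.Q94.CP.MB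
import Pool.Agent.Q94.CP.MD

/-!
# Every convex body of space splits into three convex pieces of smaller maximal section

`σ(K)` is the supremum of the areas of the sections of `K` by affine planes.  Every convex body
`D` of Euclidean space is the union of three closed convex sets with pairwise disjoint interiors
whose `σ` is smaller than `σ(D)`.

Idea of proof (helper136): two sections of maximal area meet (Meyer; proved here by a
one-dimensional mass transport).  Let `b(u)` be the least value of the support function in the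
direction `u` over all sections of maximal area; it is Lipschitz, and at a point `u` of
differentiability all extremal sections contain the gradient `p` of `b` at `u`.  One cuts `D`
slightly above the plane `⟨u, x⟩ = b(u)`, and the lower part by a slightly tilted plane passing
slightly below `p`.
-/

open MeasureTheory Set

namespace Pool.Agent.Results.MP_fa9df5_co.ThreePieces

/-- Euclidean space. -/
abbrev E := EuclideanSpace ℝ (Fin 3)

/-- `area K p d e`, for an orthonormal pair of directions `d`, `e`: the area (Lebesgue measure in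
the orthonormal coordinates `x ↦ p + x₁ d + x₂ e`) of the section of `K` by the plane through `p`
with directions `d`, `e`. -/
noncomputable def area (K : Set E) (p d e : E) : ENNReal :=
  volume {x : ℝ × ℝ | p + x.1 • d + x.2 • e ∈ K}

/-- `σ(K)`, the supremum of the areas of the sections of `K` by all affine planes. -/
noncomputable def sigma (K : Set E) : ENNReal :=
  ⨆ (p : E) (d : E) (e : E) (_ : ‖d‖ = 1 ∧ ‖e‖ = 1 ∧ inner ℝ d e = 0), area K p d e

/-- Convex bodies: compact convex sets with nonempty interior. -/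
def ConvexBody3 (D : Set E) : Prop := IsCompact D ∧ Convex ℝ D ∧ (interior D).Nonempty

/-- Every convex body `D` of space has a dissection into three convex pieces `D 0, D 1, D 2`
(closed convex sets with union `D` and pairwise disjoint interiors), each with
`σ(D i) < σ(D) < ∞`. -/
theorem result : ∀ D : Set E, ConvexBody3 D → sigma D ≠ ⊤ ∧
    ∃ P : Fin 3 → Set E, (∀ i, IsClosed (P i) ∧ Convex ℝ (P i)) ∧ (⋃ i, P i) = D ∧
      (∀ i j, i ≠ j → Disjoint (interior (P i)) (interior (P j))) ∧
      ∀ i, sigma (P i) < sigma D := by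
  intro D hD
  have hB : Q94.CP.Body D := ⟨hD.2.1, hD.1, hD.2.2⟩
  have h1a := Q94.CP.a1a
  have h1b := Q94.CP.a1b
  have h1c := Q94.CP.a1c
  have h1d := Q94.CP.a1d
  have h1e := Q94.CP.a1e
  have h2 := Q94.CP.a2 h1d
  have h3 := Q94.CP.a3 h1c h2
  have h4 := Q94.CP.a4 h1a h1b h1e
  have h5 := Q94.CP.a5 h2 h4
  have h6 := Q94.CP.a6 h1b h3 h4
  have h7 := Q94.CP.a7 h5
  have h8 := Q94.CP.a8 h1b h3
  have hx1 := Q94.CP.x1
  have hx2 := Q94.CP.x2
  have hxc := Q94.CP.xc hx1 hx2 Q94.CP.x3 Q94.CP.x4 Q94.CP.x5 Q94.CP.x6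
  have hxp := Q94.CP.xp hx1 hx2 Q94.CP.xp1 Q94.CP.xp2
  have hmeyer := Q94.CP.meyer h1a h1b h1c Q94.CP.b1 Q94.CP.b2 (Q94.CP.b3 Q94.CP.b1)
    (Q94.CP.b4 Q94.CP.b2) Q94.CP.b7 Q94.CP.b8 Q94.CP.b9 hxc hxp
  have hmain := Q94.CP.main h6 h7 h8 hmeyer Q94.CP.c (Q94.CP.d1 h1b h1e) Q94.CP.d2
  refine ⟨h1a D hB.2.1, ?_⟩
  obtain ⟨D1, D2, D3, hD1, hD2, hD3, hU, h12, h13, h23, s1, s2, s3⟩ := hmain D hB
  refine ⟨![D1, D2, D3], ?_, ?_, ?_, ?_⟩
  · intro i
    fin_cases i
    · exact hD1
    · exact hD2
    · exact hD3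
  · rw [← hU]
    ext x
    simp only [mem_iUnion, Fin.exists_fin_succ, mem_union]
    simp [or_assoc]
  · intro i j hij
    fin_cases i <;> fin_cases j
    · exact absurd rfl hij
    · exact h12
    · exact h13
    · exact h12.symm
    · exact absurd rfl hij
    · exact h23
    · exact h13.symm
    · exact h23.symm
    · exact absurd rfl hij
  · intro i
    fin_cases i
    · exact s1
    · exact s2
    · exact s3

end Pool.Agent.Results.MP_fa9df5_co.ThreePieces
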